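import Pool.Agent.Helper30.EL.St

/-! # Project EL, module GNE: the densities of dimension one -/

set_option autoImplicit false

noncomputable section

namespace Pool.Agent.Helper61.EL

open Finset Filter Topology ArithmeticFunction
open Pool.Agent.Helper9.TW (gm Qs fm StC9)
open Pool.Agent.Helper18.TR (StBonf StFLmain StLevel)
open Pool.Agent.Helper15.AB (Th StDB StMT)
open Pool.Agent.Helper60.GP (II IsB JJ Err StBVc StPNT StBump StM2)
open Pool.Agent.Helper48.BK (StSW)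
open Pool.Agent.Helper93.KS (bq Pq SW bmq idq ejq mg Gb Vq AD UQ LQ HU HL StBXQ StT1 StDK StCEL StBMQ StSQR StDUA)
open Pool.Agent.Helper30.EL

private theorem card_pf (D : ℕ) (hD : 1 ≤ D) : (D.primeFactors.card : ℝ) * Real.log 2 ≤ Real.log D := by
  have h1 : 2 ^ D.primeFactors.card ≤ D := by
    calc 2 ^ D.primeFactors.card = ∏ _p ∈ D.primeFactors, 2 := by rw [prod_const]
      _ ≤ ∏ p ∈ D.primeFactors, p := prod_le_prod' fun p hp => (Nat.prime_of_mem_primeFactors hp).two_le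
      _ ≤ D := Nat.le_of_dvd hD (Nat.prod_primeFactors_dvd D)
  have h2 : ((2 : ℝ) ^ D.primeFactors.card) ≤ (D : ℝ) := by exact_mod_cast h1
  have h3 := Real.log_le_log (by positivity) h2
  rwa [Real.log_pow] at h3

private theorem dd_le (a n c : ℕ) (ha : 7 ≤ a) (hn : n < (a + 1) ^ 2) (hc : c ≤ a) : dd n c ≤ a ^ 5 := by
  have h1 : 3 * c + 8 * n ≤ 3 * a + 8 * (a + 1) ^ 2 := by omega
  have h2 : 3 * a + 8 * (a + 1) ^ 2 ≤ a ^ 4 := by
    have h49 : 49 ≤ a ^ 2 := by nlinarith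
    have h5 : a ^ 4 = a ^ 2 * a ^ 2 := by ring
    have h6 : 49 * a ^ 2 ≤ a ^ 2 * a ^ 2 := Nat.mul_le_mul_right _ h49
    nlinarith
  calc dd n c = c * (3 * c + 8 * n) := rfl
    _ ≤ a * a ^ 4 := Nat.mul_le_mul hc (h1.trans h2)
    _ = a ^ 5 := by ring

private theorem term_le (hR : StRT) (n c p : ℕ) (X : ℝ) (hX : 7 ≤ X) (hp : p.Prime) (hXp : X ≤ p)
    (hco : Nat.Coprime c (2 * n)) :
    gd n c p ≤ 1 / (p : ℝ) + (jacobiSym (-(dd n c : ℤ)) p : ℝ) / p + 2 / (X - 1) * (1 / (p : ℝ)) +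
      (if p ∣ dd n c then 2 / X else 0) := by
  obtain ⟨r1, _, r3⟩ := hR n c p hp hco
  have hp7 : (7 : ℝ) ≤ p := hX.trans hXp
  have hp0 : (0 : ℝ) < p := by linarith
  have hp1 : (0 : ℝ) < (p : ℝ) - 1 := by linarith
  have hX1 : (0 : ℝ) < X - 1 := by linarith
  have hX0 : (0 : ℝ) < X := by linarith
  have e1 : 2 / ((p : ℝ) - 1) = 2 / p + 2 / ((p : ℝ) - 1) * (1 / p) := by
    field_simp
    ring
  have e2 : 2 / ((p : ℝ) - 1) * (1 / p) ≤ 2 / (X - 1) * (1 / p) := by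
    apply mul_le_mul_of_nonneg_right _ (by positivity)
    apply div_le_div_of_nonneg_left (by norm_num) hX1 (by linarith)
  have hJ : (-1 : ℝ) ≤ (jacobiSym (-(dd n c : ℤ)) p : ℝ) ∧ (jacobiSym (-(dd n c : ℤ)) p : ℝ) ≤ 1 := by
    rcases jacobiSym.trichotomy (-(dd n c : ℤ)) p with h | h | h <;> rw [h] <;> norm_num
  by_cases hd : p ∣ dd n c
  · rw [if_pos hd]
    have hg : gd n c p ≤ 2 / ((p : ℝ) - 1) := by
      unfold gd
      apply div_le_div_of_nonneg_right _ hp1.le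
      exact_mod_cast r1
    have e3 : 2 / (p : ℝ) ≤ 2 / X := div_le_div_of_nonneg_left (by norm_num) hX0 hXp
    have e4 : 0 ≤ 1 / (p : ℝ) + (jacobiSym (-(dd n c : ℤ)) p : ℝ) / p := by
      rw [← add_div]
      apply div_nonneg _ hp0.le
      linarith [hJ.1]
    linarith
  · rw [if_neg hd]
    have hpd : ¬ p ∣ 2 * dd n c := by
      intro h
      rcases (Nat.Prime.dvd_mul hp).1 h with h | h
      · have h2 : p ≤ 2 := Nat.le_of_dvd (by norm_num) h
        have : (p : ℝ) ≤ 2 := by exact_mod_cast h2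
        linarith
      · exact hd h
    have h3 := r3 hpd
    have h4 : ((rt n c p).card : ℝ) ≤ 1 + (jacobiSym (-(dd n c : ℤ)) p : ℝ) := by exact_mod_cast h3
    have hg : gd n c p ≤ (1 + (jacobiSym (-(dd n c : ℤ)) p : ℝ)) / ((p : ℝ) - 1) := by
      unfold gd
      exact div_le_div_of_nonneg_right h4 hp1.le
    have e5 : (1 + (jacobiSym (-(dd n c : ℤ)) p : ℝ)) / ((p : ℝ) - 1) =
        1 / (p : ℝ) + (jacobiSym (-(dd n c : ℤ)) p : ℝ) / p +
          (1 + (jacobiSym (-(dd n c : ℤ)) p : ℝ)) / ((p : ℝ) - 1) * (1 / p) := by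
      field_simp
      ring
    have e6 : (1 + (jacobiSym (-(dd n c : ℤ)) p : ℝ)) / ((p : ℝ) - 1) * (1 / p) ≤
        2 / ((p : ℝ) - 1) * (1 / p) := by
      apply mul_le_mul_of_nonneg_right _ (by positivity)
      apply div_le_div_of_nonneg_right _ hp1.le
      linarith [hJ.2]
    linarith

private theorem box_le (hR : StRT) (hM : StM2) (u i : ℕ) (η : ℝ) (hu : 1 ≤ u) (hi : 1 ≤ i) (hη : 0 < η) :
    ∀ᶠ a : ℕ in atTop, ∀ n c : ℕ, n < (a + 1) ^ 2 → 1 ≤ c → c ≤ a → Nat.Coprime c (2 * n) →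
      cs a u i (dd n c) ≤ η / 4 → Gb a (1 / (100 * u)) (gd n c) i ≤ gm i + η := by
  set ω : ℝ := 1 / (100 * u) with hω
  have hu0 : (0 : ℝ) < u := by exact_mod_cast hu
  have hω0 : 0 < ω := by positivity
  have hi1 : (1 : ℝ) ≤ (i : ℝ) := by exact_mod_cast hi
  have ha : 0 < (i : ℝ) * ω := mul_pos (by linarith) hω0
  have hab : (i : ℝ) * ω ≤ ((i : ℝ) + 1) * ω := by nlinarith
  obtain ⟨z₀, hz₀⟩ := hM _ _ ha hab (η / 4) (by positivity)
  have hXt : Tendsto (fun n : ℕ => (n : ℝ) ^ ((i : ℝ) * ω)) atTop atTop :=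
    (tendsto_rpow_atTop ha).comp tendsto_natCast_atTop_atTop
  have h7 : ∀ᶠ n : ℕ in atTop, (7 : ℝ) ≤ (n : ℝ) ^ ((i : ℝ) * ω) := hXt.eventually_ge_atTop 7
  have hz : ∀ᶠ n : ℕ in atTop, z₀ ≤ (n : ℝ) := tendsto_natCast_atTop_atTop.eventually_ge_atTop z₀
  have h3 : ∀ᶠ n : ℕ in atTop, 2 / ((n : ℝ) ^ ((i : ℝ) * ω) - 1) * (gm i + η / 4) ≤ η / 4 := by
    have h1 : Tendsto (fun n : ℕ => (n : ℝ) ^ ((i : ℝ) * ω) - 1) atTop atTop :=
      tendsto_atTop_add_const_right _ (-1) hXt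
    have h2 : Tendsto (fun n : ℕ => 2 / ((n : ℝ) ^ ((i : ℝ) * ω) - 1) * (gm i + η / 4)) atTop (𝓝 0) := by
      have := (h1.const_div_atTop 2).mul_const (gm i + η / 4)
      rwa [zero_mul] at this
    exact (h2.eventually_lt_const (by positivity : (0 : ℝ) < η / 4)).mono fun n hn => hn.le
  have h4 : ∀ᶠ n : ℕ in atTop, 10 / Real.log 2 * (Real.log n / (n : ℝ) ^ ((i : ℝ) * ω)) ≤ η / 4 := by
    have h1 : Tendsto (fun x : ℝ => Real.log x / x ^ ((i : ℝ) * ω)) atTop (𝓝 0) :=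
      (isLittleO_log_rpow_atTop ha).tendsto_div_nhds_zero
    have h2 : Tendsto (fun n : ℕ => 10 / Real.log 2 * (Real.log n / (n : ℝ) ^ ((i : ℝ) * ω))) atTop (𝓝 0) := by
      have := (h1.comp tendsto_natCast_atTop_atTop).const_mul (10 / Real.log 2)
      rwa [mul_zero] at this
    exact (h2.eventually_lt_const (by positivity : (0 : ℝ) < η / 4)).mono fun n hn => hn.le
  filter_upwards [h7, hz, h3, h4, eventually_ge_atTop 7] with a h7 hz h3 h4 ha7 n c hn hc1 hc hco hcs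
  have h := hz₀ a hz
  have hlog : Real.log (((i : ℝ) + 1) * ω / ((i : ℝ) * ω)) = gm i := by
    unfold gm
    rw [mul_div_mul_right _ _ hω0.ne']
  rw [hlog] at h
  have h1 : ∑ p ∈ bq a ω i, 1 / (p : ℝ) ≤ gm i + η / 4 := by
    have := (abs_le.1 h).2
    unfold bq
    linarith
  set X : ℝ := (a : ℝ) ^ ((i : ℝ) * ω) with hX
  have hX0 : 0 < X := by linarith
  have hX1 : 0 < X - 1 := by linarith
  have hsum : Gb a ω (gd n c) i ≤ ∑ p ∈ bq a ω i, (1 / (p : ℝ) + (jacobiSym (-(dd n c : ℤ)) p : ℝ) / p +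
      2 / (X - 1) * (1 / (p : ℝ)) + (if p ∣ dd n c then 2 / X else 0)) := by
    unfold Gb
    refine sum_le_sum fun p hp => ?_
    unfold bq at hp
    obtain ⟨_, hp1, hp2⟩ := mem_filter.1 hp
    exact term_le hR n c p X h7 hp1 hp2 hco
  rw [sum_add_distrib, sum_add_distrib, sum_add_distrib, ← mul_sum] at hsum
  have hcs' : ∑ p ∈ bq a ω i, (jacobiSym (-(dd n c : ℤ)) p : ℝ) / p ≤ η / 4 := hcs
  have h5 : 2 / (X - 1) * ∑ p ∈ bq a ω i, 1 / (p : ℝ) ≤ η / 4 :=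
    (mul_le_mul_of_nonneg_left h1 (by positivity)).trans h3
  have hD1 : 1 ≤ dd n c := by
    unfold dd
    exact Nat.succ_le_of_lt (Nat.mul_pos hc1 (by omega))
  have h6 : ∑ p ∈ bq a ω i, (if p ∣ dd n c then 2 / X else 0) ≤ η / 4 := by
    rw [← sum_filter, sum_const, nsmul_eq_mul]
    have hsub : (bq a ω i).filter (fun p => p ∣ dd n c) ⊆ (dd n c).primeFactors := by
      intro p hp
      obtain ⟨hp1, hp2⟩ := mem_filter.1 hp
      unfold bq at hp1
      exact Nat.mem_primeFactors.2 ⟨(mem_filter.1 hp1).2.1, hp2, by omega⟩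
    have hcard : (((bq a ω i).filter (fun p => p ∣ dd n c)).card : ℝ) ≤ ((dd n c).primeFactors.card : ℝ) := by
      exact_mod_cast card_le_card hsub
    have hl2 : 0 < Real.log 2 := Real.log_pos (by norm_num)
    have hpf := card_pf (dd n c) hD1
    have hDa : Real.log (dd n c) ≤ 5 * Real.log a := by
      have h1 : ((dd n c : ℕ) : ℝ) ≤ (a : ℝ) ^ 5 := by exact_mod_cast dd_le a n c ha7 hn hc
      have h2 := Real.log_le_log (by exact_mod_cast hD1) h1
      rwa [Real.log_pow] at h2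
    have hcd : ((dd n c).primeFactors.card : ℝ) ≤ 5 * Real.log a / Real.log 2 := by
      rw [le_div_iff₀ hl2]
      linarith
    calc (((bq a ω i).filter (fun p => p ∣ dd n c)).card : ℝ) * (2 / X)
        ≤ (5 * Real.log a / Real.log 2) * (2 / X) :=
          mul_le_mul_of_nonneg_right (hcard.trans hcd) (by positivity)
      _ = 10 / Real.log 2 * (Real.log a / X) := by
          field_simp
          ring
      _ ≤ η / 4 := h4
  linarith

theorem hGNE (hR : StRT) (hM : StM2) : StGNE := by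
  intro u j0 J η hu hj0 hη
  have h : ∀ᶠ a : ℕ in atTop, ∀ i ∈ Ico j0 J, ∀ n c : ℕ, n < (a + 1) ^ 2 → 1 ≤ c → c ≤ a →
      Nat.Coprime c (2 * n) → cs a u i (dd n c) ≤ η / 4 → Gb a (1 / (100 * u)) (gd n c) i ≤ gm i + η := by
    rw [eventually_all_finset]
    intro i hi
    exact box_le hR hM u i η hu (hj0.trans (mem_Ico.1 hi).1) hη
  obtain ⟨a₀, ha₀⟩ := eventually_atTop.1 h
  refine ⟨a₀, fun a n c ha hn hc1 hc hco hcs i hi => ?_⟩
  exact ha₀ a ha i hi n c hn hc1 hc hco (hcs i hi)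

end Pool.Agent.Helper61.EL
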